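import Pool.Agent.L7h6.HE.Near
import Pool.Agent.N733.TG.K
import Pool.Agent.N760.IT.C
import Pool.Agent.N375.AV.D
import Pool.Agent.N375.AV.Ex

/-!
# The bound of Hall and Lang for the abscissas near the values of arithmetic functions

For an integer `x` let `HL d C₁ x` be the statement that EVERY polynomial `f` with integral coefficients, without repeated
roots, `1 ≤ deg f ≤ d`, such that `f (x)` is a square, satisfies `h(x) ≤ C₁ h(f)`. Let `s = 1/2 + (d + 1) / C₁`, let `G` be a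
function with steps bounded below by a positive constant and growth at most `v^e`, for example `α v^e` (`α > 0`, `e ≥ 1`), let
`κ ≥ 0` and `e s + κ < 1`.

1. Let `f` be a positive multiplicative function of at most polynomial growth with `f p ≤ M p` for the large primes `p`, with
   different values at different large primes; for example Euler's function or the sum of the divisors. For all `m ≤ N` but
   `N / (log N)^U`, ALL integers `x` with `||x| - G (f m)| ≤ f(m)^κ` satisfy `HL d C₁ x`.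
2. For almost all `m` the same holds at once for `f` at the iterates `m`, `φ(m)`, `φ(φ(m))`, … of Euler's function, the first
   `K(m) → ∞` of them.
3. Let `F = f_1 ∘ ⋯ ∘ f_k`, the `f_i` dominated by the largest prime factor; for example the sum of the prime factors, the
   largest prime factor, Kempner's function, the additive functions with `f (q^j) ≤ C q^j`. The same holds for `F` in the place
   of `f`, for all `m ≤ N` but `K N exp (- c (log N)^(1/(k+1)))`.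

The values of these functions are taken with large multiplicities, so that this does not follow from the number
`O(X^(s + ε))` of the exceptions `|x| ≤ X` alone (which is `Pool.Agent.L7h6.HE.exc_count`: larger sieve, Weil's bound). The
tools are `Pool.Agent.N733.TG`, `Pool.Agent.N760.IT` and `Pool.Agent.N375.AV` of the starting library.
-/

set_option autoImplicit false

namespace Pool.Agent.Results.MP_d88658_nt.AbscissasOfArithmeticFunctions

open Finset Filter Topology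
open Pool.Agent.L7h6.HE (HL HL2 bad_ncard hl_of_hl2 natAbs_cast)
open Pool.Agent.N733.TG (LM Expanding lm_totient lm_sigma keep_good_nat expanding_pow)
open Pool.Agent.N760.IT (orb orbit_good_nat)
open Pool.Agent.N826.IT.Orb (AlmostAll almostAll_mono)
open Pool.Agent.N375.AV (PD comp good_nat pd_additive pd_sopfr pd_largest pd_kempner)

lemma hl_zero (d : ℕ) (C₁ : ℝ) (hC₁ : 0 < C₁) : HL d C₁ 0 := by
  intro f _ _ _ y _
  simp only [Int.cast_zero, abs_zero]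
  rw [max_eq_right (zero_le_one), Real.log_one]
  exact mul_nonneg hC₁.le (Real.log_nonneg (le_max_right _ _))

/-- from natural numbers to the abscissas -/
lemma transfer {d : ℕ} {C₁ : ℝ} (hC₁ : 0 < C₁) {z w : ℝ}
    (h : ∀ n : ℕ, 1 ≤ n → True → |(n : ℝ) - z| ≤ w → HL2 d C₁ n) :
    ∀ x : ℤ, |(|x| : ℝ) - z| ≤ w → HL d C₁ x := by
  intro x hx
  rcases Nat.eq_zero_or_pos x.natAbs with h0 | h0
  · rw [Int.natAbs_eq_zero.1 h0]
    exact hl_zero d _ hC₁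
  · rw [← Int.cast_abs, ← Int.natCast_natAbs, Int.cast_natCast] at hx
    exact hl_of_hl2 (h x.natAbs h0 trivial hx)

lemma sub_ncard {d : ℕ} {C₁ : ℝ} (hC₁ : 0 < C₁) (F : ℕ → ℕ) (G : ℕ → ℝ) (κ : ℝ) (N : ℕ) :
    {m : ℕ | 1 ≤ m ∧ m ≤ N ∧ ¬ ∀ x : ℤ, |(|x| : ℝ) - G (F m)| ≤ (F m : ℝ) ^ κ → HL d C₁ x}.ncard ≤
      {m : ℕ | 1 ≤ m ∧ m ≤ N ∧ ¬ ∀ n : ℕ, 1 ≤ n → True → |(n : ℝ) - G (F m)| ≤ (F m : ℝ) ^ κ → HL2 d C₁ n}.ncard := by
  apply Set.ncard_le_ncard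
  · rintro m ⟨h1, h2, h3⟩
    exact ⟨h1, h2, fun h => h3 (transfer hC₁ h)⟩
  · exact (Set.finite_Icc 1 N).subset fun m hm => ⟨hm.1, hm.2.1⟩

/-- **The bound of Hall and Lang near the values of arithmetic functions.** -/
theorem result :
    (∀ f : ℕ → ℕ, LM f → ∀ (G : ℕ → ℝ) (e : ℝ), Expanding G e → ∀ (d : ℕ) (C₁ κ : ℝ), 0 < C₁ → 0 ≤ κ →
      e * (1 / 2 + (d + 1) / C₁) + κ < 1 → ∀ U : ℕ, ∃ N₀ : ℕ, ∀ N : ℕ, N₀ ≤ N →
      ({m : ℕ | 1 ≤ m ∧ m ≤ N ∧ ¬ ∀ x : ℤ, |(|x| : ℝ) - G (f m)| ≤ (f m : ℝ) ^ κ → HL d C₁ x}.ncard : ℝ) ≤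
        N / Real.log N ^ U) ∧
    (∀ f : ℕ → ℕ, LM f → ∀ (G : ℕ → ℝ) (e : ℝ), Expanding G e → ∀ (d : ℕ) (C₁ κ : ℝ), 0 < C₁ → 0 ≤ κ →
      e * (1 / 2 + (d + 1) / C₁) + κ < 1 → ∃ K : ℕ → ℕ, Tendsto K atTop atTop ∧
      AlmostAll (fun m => ∀ k ≤ K m, ∀ x : ℤ, |(|x| : ℝ) - G (orb f k m)| ≤ (orb f k m : ℝ) ^ κ → HL d C₁ x)) ∧
    (∀ fs : List (ℕ → ℕ), (∀ f ∈ fs, PD f) → ∀ (G : ℕ → ℝ) (e : ℝ), Expanding G e → ∀ (d : ℕ) (C₁ κ : ℝ), 0 < C₁ →
      0 ≤ κ → e * (1 / 2 + (d + 1) / C₁) + κ < 1 → ∃ c K : ℝ, 0 < c ∧ ∀ N : ℕ, 1 ≤ N →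
      ({m : ℕ | 1 ≤ m ∧ m ≤ N ∧ ¬ ∀ x : ℤ, |(|x| : ℝ) - G (comp fs m)| ≤ (comp fs m : ℝ) ^ κ → HL d C₁ x}.ncard : ℝ) ≤
        K * N * Real.exp (-(c * Real.log N ^ ((1 : ℝ) / (fs.length + 1))))) ∧
    (LM Nat.totient ∧ LM (fun m => ∑ d ∈ m.divisors, d)) ∧
    ((∀ f : ℕ → ℕ, (∀ a b : ℕ, Nat.Coprime a b → f (a * b) = f a + f b) →
      (∃ C : ℕ, ∀ q j : ℕ, q.Prime → 1 ≤ j → f (q ^ j) ≤ C * q ^ j) →
      (∃ P : ℕ, ∀ p q : ℕ, p.Prime → q.Prime → P ≤ p → P ≤ q → f p = f q → p = q) → PD f) ∧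
      PD (fun n => n.primeFactorsList.sum) ∧ PD (fun n => n.primeFactors.sup id) ∧
      PD (fun n => sInf {k : ℕ | n ∣ k.factorial})) ∧
    ∀ α e : ℝ, 0 < α → 1 ≤ e → Expanding (fun v => α * (v : ℝ) ^ e) e := by
  refine ⟨fun f hf G e hG d C₁ κ hC₁ hκ h1 U => ?_, fun f hf G e hG d C₁ κ hC₁ hκ h1 => ?_,
    fun fs hfs G e hG d C₁ κ hC₁ hκ h1 => ?_, ⟨lm_totient, lm_sigma⟩,
    ⟨fun f h1 h2 h3 => pd_additive h1 h2 h3, pd_sopfr, pd_largest, pd_kempner⟩, fun α d hα hd => expanding_pow hα hd⟩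
  · obtain ⟨N₀, hN₀⟩ := keep_good_nat (fun _ => True) (HL2 d C₁) hf hG (by positivity) hκ h1
      (fun ε hε => bad_ncard d C₁ hC₁ ε hε) U
    exact ⟨N₀, fun N hN => le_trans (Nat.cast_le.2 (sub_ncard hC₁ f G κ N)) (hN₀ N hN)⟩
  · obtain ⟨K, hK, hK2⟩ := orbit_good_nat (fun _ => True) (HL2 d C₁) hf hG (by positivity) hκ h1
      (fun ε hε => bad_ncard d C₁ hC₁ ε hε)
    exact ⟨K, hK, almostAll_mono hK2 (fun m hm k hk => transfer hC₁ (hm k hk))⟩
  · obtain ⟨c, K, hc, hK⟩ := good_nat (fun _ => True) (HL2 d C₁) fs hfs hG (by positivity) hκ h1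
      (fun ε hε => bad_ncard d C₁ hC₁ ε hε)
    exact ⟨c, K, hc, fun N hN => le_trans (Nat.cast_le.2 (sub_ncard hC₁ (comp fs) G κ N)) (hK N hN)⟩

end Pool.Agent.Results.MP_d88658_nt.AbscissasOfArithmeticFunctions
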