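import Pool.Agent.L7h6.HE.Near
import Pool.Agent.N918.MS.Seq
import Pool.Agent.R482.ST.Star
import Pool.Agent.N671.DA.Win

/-!
# The bound of Hall and Lang for integral points on hyperelliptic curves, for almost all abscissas

For an integer `x` let `HL d C₁ x` be the statement that EVERY polynomial `f` with integral coefficients, without repeated
roots, `1 ≤ deg f ≤ d`, such that `f (x)` is a square, satisfies `h(x) ≤ C₁ h(f)`: all integral points with the abscissa `x`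
on all the curves `y² = f(x)` of degree at most `d` satisfy the bound of Hall and Lang, with `C₂ = 0`.

1. `HL d C₁ x` holds for all `|x| ≤ X` with at most `C X ^ (1/2 + (d + 1) / C₁) log X` exceptions. So for every
   `C₁ > 2 (d + 1)` the conjecture holds for almost all abscissas, with a power saving.
2. It holds along random sequences, without any independence, and along the sequences of metric number theory
   (`RandomAndMetric`), for all `d` and `C₁ > 2 (d + 1)` at once; for example for all but finitely many of the `⌊ξ αⁿ⌋`, for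
   almost all real `α > 1`, and for all but `N / (log N)^U` of the `⌊a_n α⌋`, `n < N`.
3. With `C₁ = K (d + 1)` it holds for ALL integers `m` with `||m| - f_n (x)| ≤ c f_n (x)^θ` and all large `n`, for all
   `x > a` outside a set of Hausdorff dimension at most `(1/2 + 1/K + τ) / (1 - θ)`, for every family of functions `f_n`
   starshaped on `(a, ∞)` of exponent of convergence `τ`; examples are `x ^ (v n)` (`τ = 0`), the multiples `v_n x`, and the
   iterates of any function `g` with `g (x) / x` nondecreasing, `g (x) > x`.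
4. It holds for ALL abscissas near `G (q)`, if `q` is large and `‖q α_j - β_j‖ ≤ c q ^ (- τ)` for all `j`, for all
   `α ∈ ℝ ^ m` outside a set of dimension at most `(m + e (1/2 + 1/K) + κ) / (1 + τ)`.

The count uses for every polynomial `f` the larger sieve of Gallagher, Weil's bound, and Mertens' theorem, with a constant
that does not depend on `f`, and all polynomials with `h(f) < h(x) / C₁`. The tools of 2, 3 and 4 are from the starting
library (`Pool.Agent.N918.MS`, `Pool.Agent.R482.ST`, `Pool.Agent.N671.DA`).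
-/

set_option autoImplicit false

namespace Pool.Agent.Results.MP_d88658_nt.AlmostAllAbscissas

open Finset Filter Topology
open Pool.Agent.L7h6.HE (HL HL2 exc_count bad_card bad_ncard hl_of_hl2 natAbs_cast)
open Pool.Agent.N918.MS (RandomAndMetric AlmostAlways randomAndMetric)
open Pool.Agent.R482.ST (Starshaped Conv win_nat)
open Pool.Agent.N671.DA (Expanding Solves approx_good_nat)

lemma hl_zero (d : ℕ) (C₁ : ℝ) (hC₁ : 0 < C₁) : HL d C₁ 0 := by
  intro f _ _ _ y _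
  simp only [Int.cast_zero, abs_zero]
  rw [max_eq_right (zero_le_one), Real.log_one]
  exact mul_nonneg hC₁.le (Real.log_nonneg (le_max_right _ _))

/-- the exceptions are few -/
lemma almostAlways (d : ℕ) (C₁ : ℝ) (h : 2 * (d + 1) < C₁) : AlmostAlways (HL d C₁) := by
  classical
  have hd : (0 : ℝ) < d + 1 := by positivity
  have hC₁ : 0 < C₁ := by linarith
  obtain ⟨C, hC0, hC⟩ := exc_count d C₁ hC₁
  refine AlmostAlways.of_card fun U => ?_
  have hs : (d + 1) / C₁ < 1 / 2 := by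
    rw [div_lt_div_iff₀ hC₁ (by norm_num)]
    linarith
  obtain ⟨δ, hδ⟩ : ∃ δ : ℝ, δ = 1 - (1 / 2 + (d + 1) / C₁) := ⟨_, rfl⟩
  have hδ0 : 0 < δ := by rw [hδ]; linarith
  have h1 := (isLittleO_log_rpow_rpow_atTop ((U + 1 : ℕ) : ℝ) hδ0).bound (by positivity : (0 : ℝ) < 1 / C)
  have h2 := tendsto_natCast_atTop_atTop (R := ℝ) |>.eventually h1
  obtain ⟨X₀, hX₀⟩ := eventually_atTop.1 h2
  refine ⟨max X₀ 3, fun X hX => ?_⟩
  have hX3 : 3 ≤ X := (le_max_right _ _).trans hX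
  have hXr : (3 : ℝ) ≤ X := by exact_mod_cast hX3
  have hX0 : (0 : ℝ) < X := by linarith
  have h3 := hX₀ X ((le_max_left _ _).trans hX)
  have hlog : 0 < Real.log X := Real.log_pos (by linarith)
  rw [Real.rpow_natCast, Real.norm_of_nonneg (by positivity), Real.norm_of_nonneg (by positivity)] at h3
  refine (hC X (by omega)).trans ?_
  rw [le_div_iff₀ (by positivity)]
  have h4 : (X : ℝ) = (X : ℝ) ^ (1 / 2 + (d + 1) / C₁) * (X : ℝ) ^ δ := by
    rw [← Real.rpow_add hX0, hδ]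
    simp
  have h5 : C * Real.log X ^ (U + 1) ≤ (X : ℝ) ^ δ := by
    have := mul_le_mul_of_nonneg_left h3 hC0.le
    rwa [← mul_assoc, mul_one_div_cancel hC0.ne', one_mul] at this
  calc C * ((X : ℝ) ^ (1 / 2 + (d + 1) / C₁) * Real.log X) * Real.log X ^ U
      = (X : ℝ) ^ (1 / 2 + (d + 1) / C₁) * (C * Real.log X ^ (U + 1)) := by ring
    _ ≤ (X : ℝ) ^ (1 / 2 + (d + 1) / C₁) * (X : ℝ) ^ δ := mul_le_mul_of_nonneg_left h5 (by positivity)
    _ = X := h4.symm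

lemma expo (d : ℕ) {K : ℝ} (hK : 0 < K) : (1 : ℝ) / 2 + (d + 1) / (K * (d + 1)) = 1 / 2 + 1 / K := by
  have : (0 : ℝ) < d + 1 := by positivity
  field_simp

open Classical in
/-- **The bound of Hall and Lang for almost all abscissas, and the abscissas of random, metric and Diophantine origin.** -/
theorem result :
    (∀ (d : ℕ) (C₁ : ℝ), 0 < C₁ → ∃ C : ℝ, 0 < C ∧ ∀ X : ℕ, 2 ≤ X →
      (#{x ∈ Icc (-(X : ℤ)) X | ¬ HL d C₁ x} : ℝ) ≤ C * ((X : ℝ) ^ (1 / 2 + (d + 1) / C₁) * Real.log X)) ∧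
    RandomAndMetric (fun (i : {p : ℕ × ℚ // 2 * ((p.1 : ℚ) + 1) < p.2}) x => HL i.1.1 (i.1.2 : ℝ) x) ∧
    (∀ (a τ θ K : ℝ) (f : ℕ → ℝ → ℝ), Starshaped a f → 0 ≤ τ → Conv a f τ → θ < 1 → 0 < K →
      ∃ E : Set ℝ, dimH E ≤ ENNReal.ofReal ((1 / 2 + 1 / K + τ) / (1 - θ)) ∧ ∀ x : ℝ, a < x → x ∉ E →
        ∀ (d : ℕ) (c : ℝ), ∃ n₀ : ℕ, ∀ n : ℕ, n₀ ≤ n → ∀ m : ℤ, |(|m| : ℝ) - f n x| ≤ c * (f n x) ^ θ →
          HL d (K * (d + 1)) m) ∧
    (∀ (G : ℕ → ℝ) (e : ℝ), Expanding G e → ∀ K κ τ : ℝ, 0 < K → 0 ≤ κ → κ ≤ 1 → 0 < τ → ∀ (m : ℕ) (β : Fin m → ℝ),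
      ∃ E : Set (Fin m → ℝ), dimH E ≤ ENNReal.ofReal ((m + (e * (1 / 2 + 1 / K) + κ)) / (1 + τ)) ∧
        ∀ α, α ∉ E → ∀ (d : ℕ) (c : ℝ), ∃ Q : ℕ, ∀ q : ℕ, Q ≤ q → Solves α β q (c * (q : ℝ) ^ (-τ)) →
          ∀ x : ℤ, |(|x| : ℝ) - G q| ≤ (q : ℝ) ^ κ → HL d (K * (d + 1)) x) ∧
    (∀ v : ℕ → ℝ, (∀ n, 1 ≤ v n) → (∀ t : ℝ, 0 < t → Summable fun n : ℕ => Real.exp (-(t * v n))) →
      Starshaped 1 (fun n x => x ^ (v n)) ∧ Conv 1 (fun n x => x ^ (v n)) 0) ∧
    (∀ (v : ℕ → ℝ) (τ : ℝ), (∀ n, 0 < v n) → (∀ t : ℝ, τ < t → Summable (fun n : ℕ => (v n) ^ (-t))) →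
      Starshaped 0 (fun n x => v n * x) ∧ Conv 0 (fun n x => v n * x) τ) ∧
    (∀ (a : ℝ) (g : ℝ → ℝ), 0 ≤ a → (∀ x y : ℝ, a < x → x ≤ y → g x / x ≤ g y / y) → (∀ x : ℝ, a < x → x < g x) →
      Starshaped a (fun n x => g^[n] x) ∧ Conv a (fun n x => g^[n] x) 0) ∧
    ∀ α e : ℝ, 0 < α → 1 ≤ e → Expanding (fun v => α * (v : ℝ) ^ e) e := by
  refine ⟨fun d C₁ hC₁ => exc_count d C₁ hC₁, ?_, ?_, ?_, fun v hv h => Pool.Agent.R482.ST.ex_pow v hv h,
    fun v τ hv h => Pool.Agent.R482.ST.ex_mul v τ hv h, fun a g ha hg hg1 => Pool.Agent.R482.ST.ex_orbit a g ha hg hg1,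
    fun α e hα he => Pool.Agent.N671.DA.expanding_pow hα he⟩
  · refine randomAndMetric _ ?_
    rintro ⟨⟨d, q⟩, hq⟩
    refine almostAlways d q ?_
    exact_mod_cast hq
  · intro a τ θ K f hf hτ hv hθ hK
    have h1 : ∀ d : ℕ, ∃ E : Set ℝ, dimH E ≤ ENNReal.ofReal ((1 / 2 + 1 / K + τ) / (1 - θ)) ∧ ∀ x : ℝ, a < x → x ∉ E →
        ∀ c : ℝ, ∃ n₀ : ℕ, ∀ n : ℕ, n₀ ≤ n → ∀ m : ℕ, |(m : ℝ) - f n x| ≤ c * (f n x) ^ θ →
          0 < m ∧ m ∉ {t : ℕ | ¬ HL2 d (K * (d + 1)) t} := by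
      intro d
      have hKd : 0 < K * ((d : ℝ) + 1) := by positivity
      refine win_nat {t : ℕ | ¬ HL2 d (K * (d + 1)) t} hf hτ hv (by positivity) hθ (fun ε hε => ?_)
      obtain ⟨C, hC⟩ := bad_card d (K * (d + 1)) hKd ε hε
      refine ⟨C, fun X hX => ?_⟩
      have h2 := hC X hX
      rw [expo d hK] at h2
      refine le_trans (le_of_eq ?_) h2
      congr!
    choose E hE1 hE2 using h1
    refine ⟨⋃ d, E d, ?_, fun x hx hxE d c => ?_⟩
    · rw [dimH_iUnion]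
      exact iSup_le hE1
    · obtain ⟨n₀, hn₀⟩ := hE2 d x hx (fun h => hxE (Set.mem_iUnion.2 ⟨d, h⟩)) c
      refine ⟨n₀, fun n hn m hm => ?_⟩
      rw [← Int.cast_abs, ← Int.natCast_natAbs, Int.cast_natCast] at hm
      have h3 := (hn₀ n hn m.natAbs hm).2
      exact hl_of_hl2 (not_not.1 h3)
  · intro G e hG K κ τ hK hκ hκ1 hτ m β
    have h1 : ∀ d : ℕ, ∃ E : Set (Fin m → ℝ), dimH E ≤ ENNReal.ofReal ((m + (e * (1 / 2 + 1 / K) + κ)) / (1 + τ)) ∧
        ∀ α, α ∉ E → ∀ c : ℝ, ∃ Q : ℕ, ∀ q : ℕ, Q ≤ q → Solves α β q (c * (q : ℝ) ^ (-τ)) →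
          ∀ n : ℕ, 1 ≤ n → True → |(n : ℝ) - G q| ≤ (q : ℝ) ^ κ → HL2 d (K * (d + 1)) n := by
      intro d
      have hKd : 0 < K * ((d : ℝ) + 1) := by positivity
      refine approx_good_nat (fun _ => True) (HL2 d (K * (d + 1))) hG (by positivity) hκ hκ1 (fun ε hε => ?_) β hτ
      have h2 := bad_ncard d (K * (d + 1)) hKd ε hε
      rwa [expo d hK] at h2
    choose E hE1 hE2 using h1
    refine ⟨⋃ d, E d, ?_, fun α hα d c => ?_⟩
    · rw [dimH_iUnion]
      exact iSup_le hE1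
    · obtain ⟨Q, hQ⟩ := hE2 d α (fun h => hα (Set.mem_iUnion.2 ⟨d, h⟩)) c
      refine ⟨Q, fun q hq hs x hx => ?_⟩
      rcases Nat.eq_zero_or_pos x.natAbs with h0 | h0
      · rw [Int.natAbs_eq_zero.1 h0]
        exact hl_zero d _ (by positivity)
      · rw [← Int.cast_abs, ← Int.natCast_natAbs, Int.cast_natCast] at hx
        exact hl_of_hl2 (hQ q hq hs x.natAbs h0 trivial hx)

end Pool.Agent.Results.MP_d88658_nt.AlmostAllAbscissas
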