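import Mathlib
import Pool.Agent.Y902.GN.Hl3
import Pool.Agent.Y902.GN.Sc2

/-!
# Integral points of hyperelliptic curves whose coordinates are generated by few integers

The conjecture of Hall, Lang and Vojta bounds `|x|` by a fixed power of the height of `f` for the integral
points of all the curves `y ^ 2 = f(x)`, `f` an integral polynomial of degree `d ≥ 3` without repeated roots.
We consider all the curves with coefficients `|a_i| ≤ X ^ E` simultaneously, and their integral points whose two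
coordinates are, up to sign, products of powers of the same `N` (unspecified) integers of size at most
`X`.  Up to isomorphism over `ℚ` of the pairs (curve, point) all but `X ^ ε` of these points satisfy
`|x| ≤ X ^ K` or `|x| > exp (X ^ δ)`.

The case `d = 3`, `f = T ^ 3 + A T + B` is `MP_a1107e_nt.FewGeneratorPoints` of the starting files.
-/

set_option autoImplicit false

namespace Pool.Agent.Results.MP_d88658_nt.FewGeneratorPoints

open Pool.Agent.Y902.GN Polynomial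

/-- `x` and `y` are, up to sign, products of powers of the same `N` integers between `1` and
`X`. -/
def Generated (N X : ℕ) (x y : ℤ) : Prop :=
  ∃ (η θ : ℤ) (b : Fin N → ℕ) (e f : Fin N → ℕ), |η| = 1 ∧ |θ| = 1 ∧
    (∀ j, 1 ≤ b j ∧ b j ≤ X) ∧ x = η * ∏ j, (b j : ℤ) ^ e j ∧ y = θ * ∏ j, (b j : ℤ) ^ f j

/-- `(x, y)` is an integral point of the curve `y ^ 2 = f(x)`, where `f` has degree `d`, no repeated roots and
coefficients of absolute value at most `X ^ E`, with generated coordinates, such that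
`X ^ K < |x| ≤ exp (X ^ δ)`. -/
structure LargePoint (d N E K : ℕ) (δ : ℝ) (X : ℕ) (f : ℤ[X]) (x y : ℤ) : Prop where
  deg : f.natDegree = d
  sep : (f.map (Int.castRingHom ℚ)).Separable
  coeff_le : ∀ i, |f.coeff i| ≤ (X : ℤ) ^ E
  eqn : y ^ 2 = f.eval x
  gen : Generated N X x y
  large : (X : ℤ) ^ K < |x|
  bound : |(x : ℝ)| ≤ Real.exp ((X : ℝ) ^ δ)

/-- The pair of the curve `y ^ 2 = f(x)` and its point `(x, y)` is isomorphic over `ℚ` to the pair of the curve
`y ^ 2 = f'(x)` and its point `(x', y')`, by an isomorphism `(u, v) ↦ (ρ u, r v)`. -/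
def Iso (p q : ℤ[X] × ℤ × ℤ) : Prop :=
  ∃ ρ r : ℚ, ρ ≠ 0 ∧ r ≠ 0 ∧ (p.2.1 : ℚ) = ρ * q.2.1 ∧ (p.2.2 : ℚ) = r * q.2.2 ∧
    ∀ i, (p.1.coeff i : ℚ) * ρ ^ i = r ^ 2 * q.1.coeff i

theorem Iso.refl (p : ℤ[X] × ℤ × ℤ) : Iso p p :=
  ⟨1, 1, one_ne_zero, one_ne_zero, (one_mul _).symm, (one_mul _).symm, fun i => by simp⟩

theorem Iso.symm {p q : ℤ[X] × ℤ × ℤ} (h : Iso p q) : Iso q p := by
  obtain ⟨ρ, r, h1, h2, h3, h4, h5⟩ := h
  refine ⟨ρ⁻¹, r⁻¹, inv_ne_zero h1, inv_ne_zero h2, ?_, ?_, fun i => ?_⟩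
  · rw [h3]; field_simp
  · rw [h4]; field_simp
  · have := h5 i
    rw [inv_pow, inv_pow]
    field_simp
    linarith

theorem Iso.trans {p q s : ℤ[X] × ℤ × ℤ} (h : Iso p q) (h' : Iso q s) : Iso p s := by
  obtain ⟨ρ, r, h1, h2, h3, h4, h5⟩ := h
  obtain ⟨ρ', r', g1, g2, g3, g4, g5⟩ := h'
  refine ⟨ρ * ρ', r * r', mul_ne_zero h1 g1, mul_ne_zero h2 g2, ?_, ?_, fun i => ?_⟩
  · rw [h3, g3]; ring
  · rw [h4, g4]; ring
  · rw [mul_pow, ← mul_assoc, h5 i, mul_assoc, g5 i]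
    ring

theorem Generated.ne {N X : ℕ} {x y : ℤ} (h : Generated N X x y) : x ≠ 0 ∧ y ≠ 0 := by
  obtain ⟨η, θ, b, e, f, hη, hθ, hb, hx, hy⟩ := h
  have hb0 : ∀ j, (b j : ℤ) ≠ 0 := fun j => by
    have := (hb j).1
    exact_mod_cast (by omega : b j ≠ 0)
  constructor
  · rw [hx]
    refine mul_ne_zero ?_ (Finset.prod_ne_zero_iff.2 fun j _ => pow_ne_zero _ (hb0 j))
    rintro rfl
    rw [abs_zero] at hη
    exact zero_ne_one hη
  · rw [hy]
    refine mul_ne_zero ?_ (Finset.prod_ne_zero_iff.2 fun j _ => pow_ne_zero _ (hb0 j))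
    rintro rfl
    rw [abs_zero] at hθ
    exact zero_ne_one hθ

/-- a polynomial of degree at least two without repeated roots has at least two terms -/
theorem exists_two {d : ℕ} (hd : 2 ≤ d) {f : ℤ[X]} (hf : f.natDegree = d)
    (hs : (f.map (Int.castRingHom ℚ)).Separable) : ∃ i, i < d ∧ f.coeff i ≠ 0 := by
  by_contra hcon
  push Not at hcon
  have hf0 : f ≠ 0 := by
    rintro rfl
    rw [natDegree_zero] at hf
    omega
  have h1 : f = C (f.coeff d) * X ^ d := by
    ext i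
    rw [coeff_C_mul, coeff_X_pow]
    rcases lt_trichotomy i d with h | h | h
    · rw [hcon i h, if_neg h.ne, mul_zero]
    · rw [if_pos h, mul_one, h]
    · rw [if_neg h.ne', mul_zero]
      exact coeff_eq_zero_of_natDegree_lt (by omega)
  have h2 : (X : ℚ[X]) * X ∣ f.map (Int.castRingHom ℚ) := by
    rw [h1, Polynomial.map_mul, Polynomial.map_pow, map_X]
    refine Dvd.dvd.mul_left ?_ _
    rw [← pow_two]
    exact pow_dvd_pow _ hd
  have h3 := hs.squarefree _ h2
  exact not_isUnit_X h3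

/-- the associated point of the general theorem -/
theorem LargePoint.hlPt {d N E K : ℕ} {δ : ℝ} {X : ℕ} {f : ℤ[X]} {x y : ℤ} (hd : 2 ≤ d)
    (h : LargePoint d N E K δ X f x y) :
    HlPt d N E K δ X (fun i : Fin (d + 1) => f.coeff i) x (y ^ 2) := by
  obtain ⟨i, hi, hi0⟩ := exists_two hd h.deg h.sep
  have hf0 : f ≠ 0 := by
    rintro rfl
    exact hi0 (coeff_zero _)
  refine ⟨fun i => h.coeff_le _, ⟨⟨i, by omega⟩, ⟨d, by omega⟩, hi, hi0, ?_⟩, ?_, h.large, ?_, ?_⟩
  · have := leadingCoeff_ne_zero.2 hf0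
    rwa [leadingCoeff, h.deg] at this
  · rw [h.eqn, eval_eq_sum_range, h.deg, Finset.sum_range]
  · have := h.bound
    rw [Int.cast_abs]
    exact this
  · obtain ⟨η, θ, b, e, f', hη, hθ, hb, hx, hy⟩ := h.gen
    refine ⟨η, θ ^ 2, b, e, fun j => f' j * 2, hη, by rw [abs_pow, hθ, one_pow], hb, hx, ?_⟩
    rw [hy, mul_pow, ← Finset.prod_pow]
    congr 1
    exact Finset.prod_congr rfl fun j _ => (pow_mul _ _ _).symm

/-- the equivalence -/
theorem iso_of_hlEq {d : ℕ} {f f' : ℤ[X]} (hf : f.natDegree = d) (hf' : f'.natDegree = d) {x y x' y' : ℤ}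
    (hx : x ≠ 0) (hy : y ≠ 0) (hy' : y' ≠ 0)
    (h : HlEq (fun i : Fin (d + 1) => f.coeff i) x (y ^ 2) (fun i : Fin (d + 1) => f'.coeff i) x' (y' ^ 2)) :
    Iso (f, x, y) (f', x', y') := by
  obtain ⟨ρ, κ, h1, h2, h3⟩ := h
  have hxq : (x : ℚ) ≠ 0 := by exact_mod_cast hx
  have hyq : (y : ℚ) ≠ 0 := by exact_mod_cast hy
  have hyq' : (y' : ℚ) ≠ 0 := by exact_mod_cast hy'
  have hρ : ρ ≠ 0 := by
    rintro rfl
    rw [zero_mul] at h1
    exact hxq h1
  have hy2 : (y : ℚ) ^ 2 = κ * (y' : ℚ) ^ 2 := by exact_mod_cast h2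
  have hκ : ((y : ℚ) / y') ^ 2 = κ := by
    rw [div_pow, hy2]
    field_simp
  refine ⟨ρ, y / y', hρ, div_ne_zero hyq hyq', h1, ?_, fun i => ?_⟩
  · change (y : ℚ) = y / y' * y'
    field_simp
  · change (f.coeff i : ℚ) * ρ ^ i = (y / y') ^ 2 * f'.coeff i
    rw [hκ]
    rcases Nat.lt_or_ge d i with hi | hi
    · rw [coeff_eq_zero_of_natDegree_lt (by omega), coeff_eq_zero_of_natDegree_lt (by omega)]
      simp
    · exact h3 ⟨i, by omega⟩

/-- **Few large integral points with generated coordinates.** For `d ≥ 2`, `N`, `E` and `ε > 0` there are `K` and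
`δ > 0` such that for all `X ≥ 2` there is a set of at most `X ^ ε` pairs (curve, point) such that every pair
of a curve `y ^ 2 = f(x)`, `f` of degree `d` without repeated roots, with coefficients of absolute value at most
`X ^ E`, and an integral point on it whose coordinates are up to sign products of powers of the same `N` integers
between `1` and `X`, `X ^ K < |x| ≤ exp (X ^ δ)`, is isomorphic to one of them. -/
theorem result (d : ℕ) (hd : 2 ≤ d) : ∀ (N E : ℕ) (ε : ℝ), 0 < ε → ∃ (K : ℕ) (δ : ℝ), 0 < δ ∧ ∀ X : ℕ, 2 ≤ X →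
    ∃ S : Finset (ℤ[X] × ℤ × ℤ), (S.card : ℝ) ≤ (X : ℝ) ^ ε ∧
      (∀ s ∈ S, LargePoint d N E K δ X s.1 s.2.1 s.2.2) ∧
      ∀ (f : ℤ[X]) (x y : ℤ), LargePoint d N E K δ X f x y → ∃ s ∈ S, Iso (f, x, y) s := by
  classical
  intro N E ε hε
  obtain ⟨K, δ, hδ, H⟩ := hl d N E ε hε
  refine ⟨K, δ, hδ, fun X hX => ?_⟩
  obtain ⟨T, hT1, hT2, hT3⟩ := max_sep
    {s : ℤ[X] × ℤ × ℤ | LargePoint d N E K δ X s.1 s.2.1 s.2.2} Iso
    Iso.refl (fun s t => Iso.symm) ((X : ℝ) ^ ε)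
    (fun T h1 h2 => by
      obtain ⟨g, hg⟩ : ∃ g : ℤ[X] × ℤ × ℤ → (Fin (d + 1) → ℤ) × ℤ × ℤ, g = fun s =>
        (fun i : Fin (d + 1) => s.1.coeff i, s.2.1, s.2.2 ^ 2) := ⟨_, rfl⟩
      have key : ∀ s ∈ T, ∀ t ∈ T, HlEq (g s).1 (g s).2.1 (g s).2.2 (g t).1 (g t).2.1 (g t).2.2 →
          s = t := by
        intro s hs t ht hst
        by_contra hne
        refine h2 s hs t ht hne ?_
        rw [hg] at hst
        have a1 := (h1 s hs).gen.ne
        have a2 := (h1 t ht).gen.ne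
        exact iso_of_hlEq (h1 s hs).deg (h1 t ht).deg a1.1 a1.2 a2.2 hst
      have hrefl : ∀ s, HlEq (g s).1 (g s).2.1 (g s).2.2 (g s).1 (g s).2.1 (g s).2.2 := fun s =>
        ⟨1, 1, (one_mul _).symm, (one_mul _).symm, fun i => by rw [one_pow, mul_one, one_mul]⟩
      have hinj : Set.InjOn g (T : Set (ℤ[X] × ℤ × ℤ)) := by
        intro s hs t ht hst
        refine key s (Finset.mem_coe.1 hs) t (Finset.mem_coe.1 ht) ?_
        rw [hst]
        exact hrefl t
      rw [← Finset.card_image_of_injOn hinj]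
      refine H X hX _ ?_ ?_
      · intro t ht
        obtain ⟨s, hs, rfl⟩ := Finset.mem_image.1 ht
        rw [hg]
        exact (h1 s hs).hlPt hd
      · intro t ht t' ht' hne
        obtain ⟨s, hs, rfl⟩ := Finset.mem_image.1 ht
        obtain ⟨s', hs', rfl⟩ := Finset.mem_image.1 ht'
        intro hcon
        exact hne (by rw [key s hs s' hs' hcon]))
  exact ⟨T, hT2, hT1, fun f x y h => hT3 (f, x, y) h⟩

end Pool.Agent.Results.MP_d88658_nt.FewGeneratorPoints
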